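import Pool.Agent.Helper11.Can.Defs
import Pool.Agent.Helper96.Iso.Kempf2

/-!
CAN-L12: the entries of the Gram matrix in adapted bases, and of its inverse.
-/

universe u

open Finset Matrix

namespace Pool.Agent.Helper11.Can

open Pool.Agent.Helper10.GIT Pool.Agent.Helper11.GIT

variable {P : ℕ} {d : Fin P → ℕ}

namespace L12

/-- the word of shape `two c` with the given letters -/
def wd (d : Fin P → ℕ) (c : Fin P) (a b : Fin (d c)) : Word d (two c) :=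
  fun i : Fin 2 => (if i = 0 then a else b : Fin (d c))

lemma act_two {R : Type*} [CommRing R] (h : Mats d R) (c : Fin P)
    (G : Matrix (Fin (d c)) (Fin (d c)) R) (a b : Fin (d c)) :
    act (sh h (two c)) (mten c G) (wd d c a b) = (h c * G * (h c)ᵀ) a b := by
  rw [act_apply]
  let e : Fin (d c) × Fin (d c) ≃ Word d (two c) :=
    (finTwoArrowEquiv (Fin (d c))).symm
  rw [← Equiv.sum_comp e, Fintype.sum_prod_type, Matrix.mul_apply]
  rw [Finset.sum_comm]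
  refine Finset.sum_congr rfl fun y _ => ?_
  rw [Matrix.mul_apply, Finset.sum_mul]
  refine Finset.sum_congr rfl fun x _ => ?_
  have h1 : (∏ t : Fin (two c).1, sh h (two c) t (wd d c a b t) (e (x, y) t)) =
      h c a x * h c b y := by
    change (∏ t : Fin 2, sh h (two c) t (wd d c a b t) (e (x, y) t)) = _
    rw [Fin.prod_univ_two]
    rfl
  have h2 : mten c G (e (x, y)) = G x y := rfl
  rw [h1, h2, Matrix.transpose_apply]
  ring

end L12

/-- CAN-L12: the entries of the Gram matrix `h * G * hᵀ` in adapted bases, and of its inverse. -/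
theorem gram_weights {κ : Type u} [Field κ] {A N : Family d κ} {h : Mats d κ} {γ : WSpace d}
    (ho : Adapted A N h γ) (c : Fin P) (G : Matrix (Fin (d c)) (Fin (d c)) κ) (hG : G.det ≠ 0)
    (hGA : mten c G ∈ A (two c)) :
    (∀ a b, (h c * G * (h c)ᵀ) a b ≠ 0 → 0 ≤ γ ⟨c, a⟩ + γ ⟨c, b⟩) ∧
      ∀ a b, (h c * G * (h c)ᵀ)⁻¹ a b ≠ 0 → γ ⟨c, a⟩ + γ ⟨c, b⟩ ≤ 0 := by
  have h1 : ∀ a b, (h c * G * (h c)ᵀ) a b ≠ 0 → 0 ≤ γ ⟨c, a⟩ + γ ⟨c, b⟩ := by
    intro a b hab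
    rw [← L12.act_two] at hab
    have h2 := ho.nonneg ⟨two c, L12.wd d c a b⟩ ⟨mten c G, hGA, hab⟩
    have h3 : wgt γ ⟨two c, L12.wd d c a b⟩ = γ ⟨c, a⟩ + γ ⟨c, b⟩ := by
      unfold wgt
      change ∑ i : Fin 2, γ (lt (L12.wd d c a b) i) = _
      rw [Fin.sum_univ_two]
      rfl
    rwa [h3] at h2
  refine ⟨h1, ?_⟩
  obtain ⟨M, hM⟩ : ∃ M, M = h c * G * (h c)ᵀ := ⟨_, rfl⟩
  rw [← hM] at h1 ⊢
  have hdet : M.det ≠ 0 := by
    rw [hM, Matrix.det_mul, Matrix.det_mul, Matrix.det_transpose]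
    exact mul_ne_zero (mul_ne_zero (ho.det c) hG) (ho.det c)
  obtain ⟨π, hπ⟩ := exists_perm hdet
  have h4 : ∀ b, γ ⟨c, π b⟩ = - γ ⟨c, b⟩ := by
    have h5 : ∀ b ∈ (Finset.univ : Finset (Fin (d c))), 0 ≤ γ ⟨c, π b⟩ + γ ⟨c, b⟩ :=
      fun b _ => h1 _ _ (hπ b)
    have h6 : ∑ b, (γ ⟨c, π b⟩ + γ ⟨c, b⟩) = 0 := by
      rw [Finset.sum_add_distrib, ho.sum c,
        Equiv.sum_comp π (fun a => γ ⟨c, a⟩), ho.sum c, add_zero]
    have h7 := (Finset.sum_eq_zero_iff_of_nonneg h5).mp h6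
    intro b
    have := h7 b (Finset.mem_univ b)
    linarith
  obtain ⟨M', hM'⟩ : ∃ M', M' = M.submatrix (Equiv.refl _) π.symm := ⟨_, rfl⟩
  have hdet' : M'.det ≠ 0 := by
    intro h0
    have h8 : IsUnit M.det := isUnit_iff_ne_zero.mpr hdet
    have h9 : IsUnit M := (Matrix.isUnit_iff_isUnit_det M).mpr h8
    have h10 : IsUnit M' := by
      rw [hM']
      exact (Matrix.isUnit_submatrix_equiv _ _).mpr h9
    exact ((Matrix.isUnit_iff_isUnit_det M').mp h10).ne_zero h0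
  have hL : LeW M' (fun a => γ ⟨c, a⟩) (fun a => γ ⟨c, a⟩) := by
    intro a b hab
    rw [hM'] at hab
    have h11 := h1 a (π.symm b) hab
    have h12 := h4 (π.symm b)
    rw [Equiv.apply_symm_apply] at h12
    show γ ⟨c, b⟩ ≤ γ ⟨c, a⟩
    linarith
  have hL' := Pool.Agent.Helper11.Iso.K2.LeW_inv hdet' hL
  intro a b hab
  have h13 : M'⁻¹ = M⁻¹.submatrix π.symm (Equiv.refl _) := by
    rw [hM', Matrix.inv_submatrix_equiv]
  have h14 := hL' (π a) b (by
    rw [h13]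
    simpa using hab)
  have h15 := h4 a
  have h16 : γ ⟨c, b⟩ ≤ γ ⟨c, π a⟩ := h14
  linarith

end Pool.Agent.Helper11.Can
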