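import Mathlib
import Pool.Agent.Helper11.Can.Coh
import Pool.Agent.Helper11.CanTypes

/-!
CAN-C8: tensors over `Ω` are in the span of the tensors over `K`.
-/

universe u v w t

open CategoryTheory Finset TensorProduct

namespace Pool.Agent.Helper11.Can

open Pool.Agent.Helper10 hiding IsAlgAut parityPart
open SmProjVar SPre Pool.Agent.Helper10.GIT Pool.Agent.Helper11.Iso

namespace C8

section

variable {k : Type u} [Field k] {K : Type v} [Field K] [CharZero K]
  (W : WeilCohomology.{u, v, w} k K) {P : ℕ} {d : Fin P → ℕ} {V : Fin P → SmProjVar k}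
  (e : ∀ c, Fin (d c) → W.H (V c)) (𝒳 : SmProjVar k → Prop) (Ω : Type t) [Field Ω] [Algebra K Ω]

lemma one_one (T : SmProjVar k) : Obs.one W Ω (1 : W.H T) = 1 := rfl

lemma prod_ofFn_one {T : SmProjVar k} {n : ℕ} (g : Fin n → W.H T) :
    (List.ofFn fun i => Obs.one W Ω (g i)).prod = Obs.one W Ω (List.ofFn g).prod := by
  induction n with
  | zero =>
    rw [List.ofFn_zero, List.ofFn_zero, List.prod_nil, List.prod_nil]
    exact (one_one W Ω T).symm
  | succ n ih =>
    rw [List.ofFn_succ, List.ofFn_succ, List.prod_cons, List.prod_cons, Obs.one_mul,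
      ih (fun i => g i.succ)]

lemma wd_one {χ : Shape P} {T : SmProjVar k}
    (f : ∀ i : Fin χ.1, T.toOver ⟶ (V (χ.2 i)).toOver) (w : Word d χ) :
    wd (W.toSPre Ω) (oneF W e Ω) f w = Obs.one W Ω (kwd W e f w) := by
  unfold wd kwd
  rw [← prod_ofFn_one]
  congr 2

lemma ctens_one {χ : Shape P} {T X : SmProjVar k} (p : T.toOver ⟶ X.toOver)
    (f : ∀ i : Fin χ.1, T.toOver ⟶ (V (χ.2 i)).toOver) (r : W.H T) (x : W.H X) :
    ctens (W.toSPre Ω) (oneF W e Ω) p f (Obs.one W Ω r) (Obs.one W Ω x) =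
      emb Ω (kten W e p f r x) := by
  funext w
  unfold ctens kten emb
  rw [wd_one, Obs.pull_one, ← Obs.one_mul, Obs.tr_one_mul]
  rfl

variable {W Ω} in
lemma ctens_add_left {e : ∀ c, Fin (d c) → (W.toSPre Ω).H (V c)} {χ : Shape P}
    {T X : SmProjVar k} (p : T.toOver ⟶ X.toOver)
    (f : ∀ i : Fin χ.1, T.toOver ⟶ (V (χ.2 i)).toOver) (r r' : (W.toSPre Ω).H T)
    (x : (W.toSPre Ω).H X) :
    ctens (W.toSPre Ω) e p f (r + r') x =
      ctens (W.toSPre Ω) e p f r x + ctens (W.toSPre Ω) e p f r' x := by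
  funext w
  simp only [ctens, Pi.add_apply, add_mul, map_add]

variable {W Ω} in
lemma ctens_smul_left {e : ∀ c, Fin (d c) → (W.toSPre Ω).H (V c)} {χ : Shape P}
    {T X : SmProjVar k} (p : T.toOver ⟶ X.toOver)
    (f : ∀ i : Fin χ.1, T.toOver ⟶ (V (χ.2 i)).toOver) (a : Ω) (r : (W.toSPre Ω).H T)
    (x : (W.toSPre Ω).H X) :
    ctens (W.toSPre Ω) e p f (a • r) x = a • ctens (W.toSPre Ω) e p f r x := by
  funext w
  simp only [ctens, Pi.smul_apply, smul_mul_assoc, map_smul]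

variable {W Ω} in
lemma ctens_add_right {e : ∀ c, Fin (d c) → (W.toSPre Ω).H (V c)} {χ : Shape P}
    {T X : SmProjVar k} (p : T.toOver ⟶ X.toOver)
    (f : ∀ i : Fin χ.1, T.toOver ⟶ (V (χ.2 i)).toOver) (r : (W.toSPre Ω).H T)
    (x x' : (W.toSPre Ω).H X) :
    ctens (W.toSPre Ω) e p f r (x + x') =
      ctens (W.toSPre Ω) e p f r x + ctens (W.toSPre Ω) e p f r x' := by
  funext w
  simp only [ctens, Pi.add_apply, map_add, mul_add, add_mul]

variable {W Ω} in
lemma ctens_smul_right {e : ∀ c, Fin (d c) → (W.toSPre Ω).H (V c)} {χ : Shape P}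
    {T X : SmProjVar k} (p : T.toOver ⟶ X.toOver)
    (f : ∀ i : Fin χ.1, T.toOver ⟶ (V (χ.2 i)).toOver) (a : Ω) (r : (W.toSPre Ω).H T)
    (x : (W.toSPre Ω).H X) :
    ctens (W.toSPre Ω) e p f r (a • x) = a • ctens (W.toSPre Ω) e p f r x := by
  funext w
  simp only [ctens, Pi.smul_apply, map_smul, mul_smul_comm, smul_mul_assoc]

variable {W Ω} in
lemma ctens_zero_left {e : ∀ c, Fin (d c) → (W.toSPre Ω).H (V c)} {χ : Shape P}
    {T X : SmProjVar k} (p : T.toOver ⟶ X.toOver)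
    (f : ∀ i : Fin χ.1, T.toOver ⟶ (V (χ.2 i)).toOver) (x : (W.toSPre Ω).H X) :
    ctens (W.toSPre Ω) e p f 0 x = 0 := by
  have h := ctens_smul_left (W := W) (Ω := Ω) (e := e) p f 0 0 x
  rwa [zero_smul, zero_smul] at h

variable {W Ω} in
lemma ctens_zero_right {e : ∀ c, Fin (d c) → (W.toSPre Ω).H (V c)} {χ : Shape P}
    {T X : SmProjVar k} (p : T.toOver ⟶ X.toOver)
    (f : ∀ i : Fin χ.1, T.toOver ⟶ (V (χ.2 i)).toOver) (r : (W.toSPre Ω).H T) :
    ctens (W.toSPre Ω) e p f r 0 = 0 := by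
  have h := ctens_smul_right (W := W) (Ω := Ω) (e := e) p f 0 r 0
  rwa [zero_smul, zero_smul] at h

/-- the algebraic classes over `K` which are orthogonal to all algebraic classes -/
def radK (T : SmProjVar k) : Submodule K (W.H T) where
  carrier := {r | r ∈ W.algClasses T ∧ ∀ a ∈ W.algClasses T, W.trL T (r * a) = 0}
  add_mem' := fun {x y} hx hy => ⟨Submodule.add_mem _ hx.1 hy.1, fun a ha => by
    rw [add_mul, map_add, hx.2 a ha, hy.2 a ha, add_zero]⟩
  zero_mem' := ⟨Submodule.zero_mem _, fun a _ => by rw [zero_mul, map_zero]⟩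
  smul_mem' := fun c x hx => ⟨Submodule.smul_mem _ _ hx.1, fun a ha => by
    rw [smul_mul_assoc, map_smul, hx.2 a ha, smul_zero]⟩

lemma rad_mem' {T : SmProjVar k} (r : W.HΩ Ω T) (h1 : r ∈ (W.algClasses T).baseChange Ω)
    (h2 : ∀ a ∈ W.algClasses T, W.trΩ Ω T (r * ((1 : Ω) ⊗ₜ[K] a)) = 0) :
    r ∈ (radK W T).baseChange Ω := by
  classical
  obtain ⟨r', hr'⟩ := LinearMap.mem_range.mp h1
  let b := Module.Basis.ofVectorSpace K Ω
  obtain ⟨g, hg⟩ : ∃ g, g = TensorProduct.equivFinsuppOfBasisLeft (N := W.algClasses T) b r' :=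
    ⟨_, rfl⟩
  have hx : r' = g.sum fun i n => b i ⊗ₜ[K] n := by
    rw [hg, ← TensorProduct.equivFinsuppOfBasisLeft_symm_apply, LinearEquiv.symm_apply_apply]
  have hr : r = g.sum fun i n => b i ⊗ₜ[K] (n : W.H T) := by
    rw [← hr', hx, Finsupp.sum, map_sum, Finsupp.sum]
    rfl
  have h4 : ∀ i, (g i : W.H T) ∈ radK W T := by
    intro i
    refine ⟨(g i).2, fun a ha => ?_⟩
    have h5 := h2 a ha
    rw [hr, Finsupp.sum, Finset.sum_mul, map_sum] at h5
    simp only [Algebra.TensorProduct.tmul_mul_tmul, mul_one, WeilCohomology.trΩ_tmul] at h5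
    by_cases hi : i ∈ g.support
    · exact (linearIndependent_iff'.mp b.linearIndependent) g.support
        (fun i => W.trL T ((g i : W.H T) * a)) h5 i hi
    · rw [Finsupp.notMem_support_iff.mp hi, ZeroMemClass.coe_zero, zero_mul, map_zero]
  rw [hr]
  refine Submodule.sum_mem _ fun i _ => ?_
  exact Submodule.tmul_mem_baseChange_of_mem _ (h4 i)

lemma rad_mem {T : SmProjVar k} {r : (W.toSPre Ω).H T} (h : (W.toSPre Ω).rad T r) :
    r ∈ Obs.bc W Ω (radK W T) :=
  rad_mem' W Ω r h.1 fun _ ha => h.2 _ (Obs.one_mem_alg W Ω ha)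

end

end C8

section weil

variable {k : Type u} [Field k] {K : Type v} [Field K] [CharZero K]
  (W : WeilCohomology.{u, v, w} k K) {P : ℕ} {d : Fin P → ℕ} {V : Fin P → SmProjVar k}
  (e : ∀ c, Fin (d c) → W.H (V c)) (𝒳 : SmProjVar k → Prop) (Ω : Type t) [Field Ω] [Algebra K Ω]

/-- CAN-C8: tensors over `Ω` are in the span of the tensors over `K` (multilinearity;
`Obs.bc_induction`, `Obs.top_induction` in Helper11/ObsThm.lean) -/
theorem famA_subset_span (χ : Shape P) :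
    famA (W.toSPre Ω) (oneF W e Ω) 𝒳 χ ⊆
      (Submodule.span Ω (ext Ω (kA W e 𝒳) χ) : Set (Ten d Ω χ)) := by
  rintro z ⟨T, X, p, f, r, x, hX, hr, rfl⟩
  have hr' : r ∈ Obs.bc W Ω (W.algClasses T) := hr
  refine Obs.bc_induction W Ω (p := fun r => ctens (W.toSPre Ω) (oneF W e Ω) p f r x ∈
    (Submodule.span Ω (ext Ω (kA W e 𝒳) χ) : Set (Ten d Ω χ))) ?_ ?_ ?_ ?_ hr'
  · intro y hy
    refine Obs.top_induction W Ω (p := fun x => ctens (W.toSPre Ω) (oneF W e Ω) p f
      (Obs.one W Ω y) x ∈ (Submodule.span Ω (ext Ω (kA W e 𝒳) χ) : Set (Ten d Ω χ)))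
      ?_ ?_ ?_ ?_ x
    · intro x'
      rw [C8.ctens_one]
      exact Submodule.subset_span ⟨_, ⟨T, X, p, f, y, x', hX, hy, rfl⟩, rfl⟩
    · rw [C8.ctens_zero_right]
      exact Submodule.zero_mem _
    · intro a b ha hb
      rw [C8.ctens_add_right]
      exact Submodule.add_mem _ ha hb
    · intro a b hb
      rw [C8.ctens_smul_right]
      exact Submodule.smul_mem _ _ hb
  · rw [C8.ctens_zero_left]
    exact Submodule.zero_mem _
  · intro a b ha hb
    rw [C8.ctens_add_left]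
    exact Submodule.add_mem _ ha hb
  · intro a b hb
    rw [C8.ctens_smul_left]
    exact Submodule.smul_mem _ _ hb

/-- CAN-C8, second part. (A class `r ∈ Ω ⊗ algClasses` which is orthogonal to all algebraic classes
is a linear combination of classes `1 ⊗ r'`, `r' ∈ algClasses` orthogonal to all algebraic classes:
write `r = ∑ ω j ⊗ r j`, `ω j` linearly independent over `K`.) -/
theorem famN_subset_span (χ : Shape P) :
    famN (W.toSPre Ω) (oneF W e Ω) 𝒳 χ ⊆
      (Submodule.span Ω (ext Ω (kN W e 𝒳) χ) : Set (Ten d Ω χ)) := by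
  rintro z ⟨T, X, p, f, r, x, hX, hr, rfl⟩
  refine Obs.bc_induction W Ω (p := fun r => ctens (W.toSPre Ω) (oneF W e Ω) p f r x ∈
    (Submodule.span Ω (ext Ω (kN W e 𝒳) χ) : Set (Ten d Ω χ))) ?_ ?_ ?_ ?_ (C8.rad_mem W Ω hr)
  · intro y hy
    refine Obs.top_induction W Ω (p := fun x => ctens (W.toSPre Ω) (oneF W e Ω) p f
      (Obs.one W Ω y) x ∈ (Submodule.span Ω (ext Ω (kN W e 𝒳) χ) : Set (Ten d Ω χ)))
      ?_ ?_ ?_ ?_ x
    · intro x'
      rw [C8.ctens_one]
      exact Submodule.subset_span ⟨_, ⟨T, X, p, f, y, x', hX, hy.1, hy.2, rfl⟩, rfl⟩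
    · rw [C8.ctens_zero_right]
      exact Submodule.zero_mem _
    · intro a b ha hb
      rw [C8.ctens_add_right]
      exact Submodule.add_mem _ ha hb
    · intro a b hb
      rw [C8.ctens_smul_right]
      exact Submodule.smul_mem _ _ hb
  · rw [C8.ctens_zero_left]
    exact Submodule.zero_mem _
  · intro a b ha hb
    rw [C8.ctens_add_left]
    exact Submodule.add_mem _ ha hb
  · intro a b hb
    rw [C8.ctens_smul_left]
    exact Submodule.smul_mem _ _ hb

end weil

end Pool.Agent.Helper11.Can
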